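import Mathlib
import Pool.Agent.Lib.MP_bbfed3_an.Gap

/-!
Minimisers of the discrete power-law interaction energy converge to minimisers of the continuum
energy, for every `-d < α < β`; in particular in the singular range `-d < α ≤ 2 - d`.
-/

namespace Pool.Agent.Results.MP_bbfed3_an.DiscreteToContinuum

open Set Filter Topology MeasureTheory
open scoped ENNReal

/-- The space `ℝ^d`. -/
abbrev Space (d : ℕ) := EuclideanSpace ℝ (Fin d)

/-- `r ^ γ / γ`, read as `log r` when `γ = 0`. -/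
noncomputable def powLog (γ r : ℝ) : ℝ := if γ = 0 then Real.log r else r ^ γ / γ

/-- The potential `W(x) = -|x|^α/α + |x|^β/β` for `x ≠ 0`, extended to the origin by its limit
there: `+∞` if `α ≤ 0` and `0` if `α > 0` (recall `α < β`). -/
noncomputable def W {d : ℕ} (α β : ℝ) (x : Space d) : EReal :=
  if x = 0 then (if α ≤ 0 then ⊤ else 0) else ((-powLog α ‖x‖ + powLog β ‖x‖ : ℝ) : EReal)

/-- The continuum energy `E[ρ] = (1/2) ∬ W(x - y) dρ(x) dρ(y)`, where the integral of `W` is the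
integral of its positive part minus the integral of its negative part. -/
noncomputable def contEnergy {d : ℕ} (α β : ℝ) (ρ : Measure (Space d)) : EReal :=
  ((1 / 2 : ℝ) : EReal) *
    (((∫⁻ z, (W α β (z.1 - z.2)).toENNReal ∂(ρ.prod ρ) : ℝ≥0∞) : EReal) -
      ((∫⁻ z, (-W α β (z.1 - z.2)).toENNReal ∂(ρ.prod ρ) : ℝ≥0∞) : EReal))

/-- The discrete energy `E_N[X] = (1/2) ∑_{i ≠ j} W(X_i - X_j)`. -/
noncomputable def discEnergy {d N : ℕ} (α β : ℝ) (X : Fin N → Space d) : EReal :=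
  ((1 / 2 : ℝ) : EReal) * ∑ i, ∑ j, if i = j then 0 else W α β (X i - X j)

/-- `X` is a global minimiser of the discrete energy. -/
def IsDiscreteMinimizer {d N : ℕ} (α β : ℝ) (X : Fin N → Space d) : Prop :=
  ∀ Y : Fin N → Space d, discEnergy α β X ≤ discEnergy α β Y

/-- `ρ` is a global minimiser of the continuum energy over probability measures. -/
def IsContinuumMinimizer {d : ℕ} (α β : ℝ) (ρ : ProbabilityMeasure (Space d)) : Prop :=
  ∀ ρ' : ProbabilityMeasure (Space d),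
    contEnergy α β (ρ : Measure (Space d)) ≤ contEnergy α β (ρ' : Measure (Space d))

/-- The empirical measure of `X` translated by `a`: `(1/N) ∑ δ_{X_i - a}`, i.e. the measure
`μ_N(· + a)`. -/
noncomputable def empirical {d N : ℕ} (X : Fin N → Space d) (a : Space d) : Measure (Space d) :=
  (N : ℝ≥0∞)⁻¹ • ∑ i, Measure.dirac (X i - a)

/-- Narrow convergence of a sequence of measures (tested against bounded continuous functions). -/
def NarrowTendsto {d : ℕ} (μ : ℕ → Measure (Space d)) (ρ : Measure (Space d)) : Prop :=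
  ∀ f : BoundedContinuousFunction (Space d) ℝ,
    Tendsto (fun k => ∫ x, f x ∂(μ k)) atTop (𝓝 (∫ x, f x ∂ρ))

section aux

open Pool.Agent.MP_bbfed3_an

lemma powLog_eq (γ r : ℝ) : powLog γ r = Pool.Agent.MP_bbfed3_an.powLog γ r := rfl

lemma W_eq {d : ℕ} {α β : ℝ} (h : α < β) (x : Space d) :
    W α β x = ((VV α β x : ℝ≥0∞) : EReal) + ((-C₀ α β : ℝ) : EReal) := by
  have hC : 0 ≤ C₀ α β := abs_nonneg _
  by_cases hx : x = 0
  · subst hx
    by_cases hα : α ≤ 0
    · simp [W, VV, vr, hα]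
    · simp only [W, VV, vr, norm_zero, if_true, if_neg hα]
      rw [EReal.coe_ennreal_ofReal, max_eq_left hC, ← EReal.coe_add]
      simp
  · have hr : 0 < ‖x‖ := norm_pos_iff.2 hx
    simp only [W, VV, vr, if_neg hx, if_neg hr.ne']
    have h1 := prof_add_nonneg h hr
    rw [EReal.coe_ennreal_ofReal, max_eq_left h1, ← EReal.coe_add]
    congr 1
    have h2 : prof α β ‖x‖ = -powLog α ‖x‖ + powLog β ‖x‖ := rfl
    rw [h2]
    ring

lemma parts_eq {d : ℕ} {α β : ℝ} (h : α < β) (x : Space d) :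
    VV α β x + (-W α β x).toENNReal = (W α β x).toENNReal + ENNReal.ofReal (C₀ α β) := by
  have hC : 0 ≤ C₀ α β := abs_nonneg _
  by_cases hx : x = 0
  · subst hx
    by_cases hα : α ≤ 0
    · simp [W, VV, vr, hα]
    · simp [W, VV, vr, hα]
  · have hr : 0 < ‖x‖ := norm_pos_iff.2 hx
    simp only [W, VV, vr, if_neg hx, if_neg hr.ne']
    have h1 := prof_add_nonneg h hr
    have h2 : prof α β ‖x‖ = -powLog α ‖x‖ + powLog β ‖x‖ := rfl
    rw [← h2, ← EReal.coe_neg, EReal.real_coe_toENNReal, EReal.real_coe_toENNReal]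
    rcases le_total 0 (prof α β ‖x‖) with h3 | h3
    · rw [ENNReal.ofReal_of_nonpos (by linarith : -prof α β ‖x‖ ≤ 0), add_zero,
        ENNReal.ofReal_add h3 hC]
    · rw [ENNReal.ofReal_of_nonpos h3, zero_add, ← ENNReal.ofReal_add h1 (by linarith)]
      congr 1
      ring

lemma ereal_aux (A P Q : ℝ≥0∞) {C : ℝ} (hC : 0 ≤ C) (hQ : Q ≠ ⊤)
    (h : A + Q = P + ENNReal.ofReal C) :
    ((P : EReal) - (Q : EReal)) = (A : EReal) + ((-C : ℝ) : EReal) := by
  have h1 : (A : EReal) + (Q : EReal) = (P : EReal) + (C : EReal) := by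
    have := congrArg (fun t : ℝ≥0∞ => (t : EReal)) h
    simp only [EReal.coe_ennreal_add, EReal.coe_ennreal_ofReal, max_eq_left hC] at this
    exact this
  lift Q to NNReal using hQ
  have hQr : ((Q : ℝ≥0∞) : EReal) = ((Q : ℝ) : EReal) := rfl
  rw [hQr] at h1 ⊢
  have h2 : (P : EReal) = (A : EReal) + ((Q : ℝ) : EReal) - (C : EReal) := by
    rw [h1, EReal.add_sub_cancel_right]
  rw [h2, EReal.coe_neg, ← sub_eq_add_neg]
  have h3 : (A : EReal) + ((Q : ℝ) : EReal) - (C : EReal) =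
      (A : EReal) - (C : EReal) + ((Q : ℝ) : EReal) := by
    rw [sub_eq_add_neg, sub_eq_add_neg, add_right_comm]
  rw [h3, EReal.add_sub_cancel_right]

lemma contEnergy_eq {d : ℕ} {α β : ℝ} (h : α < β) (ρ : Measure (Space d))
    [IsProbabilityMeasure ρ] :
    contEnergy α β ρ = ((1 / 2 : ℝ) : EReal) *
      (((J (VV α β) ρ : ℝ≥0∞) : EReal) + ((-C₀ α β : ℝ) : EReal)) := by
  have hC : 0 ≤ C₀ α β := abs_nonneg _
  have hVm : Measurable (VV α β : Space d → ℝ≥0∞) := (VV_continuous h).measurable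
  have hint : J (VV α β) ρ + ∫⁻ z, (-W α β (z.1 - z.2)).toENNReal ∂(ρ.prod ρ) =
      ∫⁻ z, (W α β (z.1 - z.2)).toENNReal ∂(ρ.prod ρ) + ENNReal.ofReal (C₀ α β) := by
    rw [J, ← lintegral_add_left (measurable_diff hVm)]
    have h1 : ENNReal.ofReal (C₀ α β) = ∫⁻ _, ENNReal.ofReal (C₀ α β) ∂(ρ.prod ρ) := by
      rw [lintegral_const, measure_univ, mul_one]
    conv_rhs => rw [h1]
    rw [← lintegral_add_right _ measurable_const]
    exact lintegral_congr fun z => parts_eq h _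
  have hfin : ∫⁻ z, (-W α β (z.1 - z.2)).toENNReal ∂(ρ.prod ρ) ≠ ⊤ := by
    refine ne_top_of_le_ne_top (ENNReal.ofReal_ne_top (r := C₀ α β)) ?_
    calc ∫⁻ z, (-W α β (z.1 - z.2)).toENNReal ∂(ρ.prod ρ)
        ≤ ∫⁻ _, ENNReal.ofReal (C₀ α β) ∂(ρ.prod ρ) := by
          refine lintegral_mono fun z => ?_
          have h3 : ((-C₀ α β : ℝ) : EReal) ≤ W α β (z.1 - z.2) := by
            rw [W_eq h]
            calc ((-C₀ α β : ℝ) : EReal) = 0 + ((-C₀ α β : ℝ) : EReal) := (zero_add _).symm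
              _ ≤ _ := add_le_add (EReal.coe_ennreal_nonneg _) le_rfl
          have h2 : -W α β (z.1 - z.2) ≤ ((C₀ α β : ℝ) : EReal) := by
            rw [EReal.neg_le, ← EReal.coe_neg]
            exact h3
          exact (EReal.toENNReal_le_toENNReal h2).trans_eq (EReal.real_coe_toENNReal _)
      _ = ENNReal.ofReal (C₀ α β) := by rw [lintegral_const, measure_univ, mul_one]
  rw [contEnergy, ereal_aux _ _ _ hC hfin hint]

/-- coercions as additive homomorphisms -/
lemma coe_sum_ennreal {ι : Type*} (s : Finset ι) (f : ι → ℝ≥0∞) :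
    ((∑ i ∈ s, f i : ℝ≥0∞) : EReal) = ∑ i ∈ s, (f i : EReal) :=
  map_sum (⟨⟨fun t : ℝ≥0∞ => (t : EReal), EReal.coe_ennreal_zero⟩, EReal.coe_ennreal_add⟩ :
    ℝ≥0∞ →+ EReal) f s

lemma coe_sum_real {ι : Type*} (s : Finset ι) (f : ι → ℝ) :
    ((∑ i ∈ s, f i : ℝ) : EReal) = ∑ i ∈ s, (f i : EReal) :=
  map_sum (⟨⟨fun t : ℝ => (t : EReal), EReal.coe_zero⟩, EReal.coe_add⟩ : ℝ →+ EReal) f s

lemma discEnergy_eq {d N : ℕ} {α β : ℝ} (h : α < β) (X : Fin N → Space d) :
    discEnergy α β X = ((1 / 2 : ℝ) : EReal) *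
      (((JN (VV α β) X : ℝ≥0∞) : EReal) +
        ((∑ i : Fin N, ∑ j : Fin N, (if i = j then 0 else -C₀ α β) : ℝ) : EReal)) := by
  rw [discEnergy]
  congr 1
  have h1 : ∀ i j : Fin N, (if i = j then 0 else W α β (X i - X j)) =
      (((if i = j then 0 else VV α β (X i - X j) : ℝ≥0∞)) : EReal) +
        (((if i = j then 0 else -C₀ α β : ℝ)) : EReal) := by
    intro i j
    by_cases hij : i = j
    · simp [hij]
    · simp only [if_neg hij]
      exact W_eq h _
  simp_rw [h1, Finset.sum_add_distrib]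
  rw [JN, coe_sum_ennreal, coe_sum_real]
  simp_rw [coe_sum_ennreal, coe_sum_real]

lemma half_mono {a b : ℝ≥0∞} {K : ℝ}
    (h : ((1 / 2 : ℝ) : EReal) * ((a : EReal) + (K : EReal)) ≤
      ((1 / 2 : ℝ) : EReal) * ((b : EReal) + (K : EReal))) : a ≤ b := by
  have h2 : ∀ t : EReal, ((2 : ℝ) : EReal) * (((1 / 2 : ℝ) : EReal) * t) = t := by
    intro t
    rw [← mul_assoc, ← EReal.coe_mul]
    norm_num
  have h3 := mul_le_mul_of_nonneg_left h
    (by exact_mod_cast (by norm_num : (0 : ℝ) ≤ 2) : (0 : EReal) ≤ ((2 : ℝ) : EReal))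
  rw [h2, h2] at h3
  have h4 := EReal.sub_le_sub h3 (le_refl (K : EReal))
  rw [EReal.add_sub_cancel_right, EReal.add_sub_cancel_right] at h4
  exact EReal.coe_ennreal_le_coe_ennreal_iff.1 h4

lemma half_mono' {a b : ℝ≥0∞} {K : ℝ} (h : a ≤ b) :
    ((1 / 2 : ℝ) : EReal) * ((a : EReal) + (K : EReal)) ≤
      ((1 / 2 : ℝ) : EReal) * ((b : EReal) + (K : EReal)) := by
  refine mul_le_mul_of_nonneg_left (add_le_add ?_ le_rfl) ?_
  · exact EReal.coe_ennreal_le_coe_ennreal_iff.2 h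
  · exact_mod_cast (by norm_num : (0 : ℝ) ≤ 1 / 2)

end aux

open Pool.Agent.MP_bbfed3_an in
/-- **Main theorem.** Let `d ≥ 1` and `-d < α < β`. For every sequence of discrete minimisers whose
number of particles `n k ≥ 2` tends to infinity there are translations `a k` such that every
subsequence of the translated empirical measures has a further subsequence converging narrowly to
a minimiser of the continuum energy. -/
theorem result (d : ℕ) (hd : 1 ≤ d) (α β : ℝ) (hα : -(d : ℝ) < α) (hαβ : α < β)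
    (n : ℕ → ℕ) (hn2 : ∀ k, 2 ≤ n k) (hn : Tendsto n atTop atTop)
    (X : ∀ k, Fin (n k) → Space d) (hX : ∀ k, IsDiscreteMinimizer α β (X k)) :
    ∃ a : ℕ → Space d, ∀ φ : ℕ → ℕ, StrictMono φ → ∃ ψ : ℕ → ℕ, StrictMono ψ ∧
      ∃ ρ : ProbabilityMeasure (Space d), IsContinuumMinimizer α β ρ ∧
        NarrowTendsto (fun k => empirical (X (φ (ψ k))) (a (φ (ψ k)))) (ρ : Measure (Space d)) := by
  have hfr : Module.finrank ℝ (Space d) = d := finrank_euclideanSpace_fin
  obtain ⟨L, g, R, hg, hgL, hR0, hR, hgap⟩ := exists_gap (E := Space d) (by rw [hfr]; exact hd)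
    (by rw [hfr]; exact hα) hαβ
  obtain ⟨a, ha⟩ := discrete_main (VV_continuous hαβ) (VV_symm α β) hg hgL hR0 hR hgap n hn
    (fun k => (by norm_num : 1 ≤ 2).trans (hn2 k)) X (fun k Y => by
      have h1 := hX k Y
      rw [discEnergy_eq hαβ, discEnergy_eq hαβ] at h1
      exact half_mono h1)
  refine ⟨a, fun φ hφ => ?_⟩
  obtain ⟨ψ, hψ, ν, hν, hlim⟩ := ha φ hφ
  refine ⟨ψ, hψ, ν, fun ν' => ?_, hlim⟩
  rw [contEnergy_eq hαβ, contEnergy_eq hαβ]
  exact half_mono' (hν ν')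

end Pool.Agent.Results.MP_bbfed3_an.DiscreteToContinuum
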